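import Pool.Agent.Helper70.SW.Wt

/-!
MP_66e4ee_co: the vertex-weighted Hoffman-London inequality for all complete multipartite graphs.
-/

set_option autoImplicit false

namespace Pool.Agent.Results.MP_66e4ee_co.WeightedAll

open Finset

open Classical in
theorem key {r : ℕ} {W : Type} [Fintype W] (p : W → Fin r) (ω : W → ℝ) (n : ℕ)
    (G : SimpleGraph (Fin n)) :
    ∑ f ∈ (univ : Finset (Fin n → W)).filter (fun f => ∀ u v : Fin n,
      G.Adj u v → p (f u) ≠ p (f v)), ∏ v, ω (f v) =
    Pool.Agent.Helper6.HL.Y G (fun _ i => ∑ x ∈ univ.filter (fun x => p x = i), ω x) := by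
  rw [Pool.Agent.Helper6.HL.Y, sum_filter,
    ← Finset.sum_fiberwise univ (fun f : Fin n → W => fun v => p (f v))]
  refine sum_congr rfl fun c _ => ?_
  have h1 : ∀ f ∈ univ.filter (fun f : Fin n → W => (fun v => p (f v)) = c),
      (if (∀ u v : Fin n, G.Adj u v → p (f u) ≠ p (f v)) then ∏ v, ω (f v) else 0) =
      if Pool.Agent.Helper6.HL.Proper G c then ∏ v, ω (f v) else 0 := by
    intro f hf
    rw [mem_filter] at hf
    have h2 : (∀ u v : Fin n, G.Adj u v → p (f u) ≠ p (f v)) ↔
        Pool.Agent.Helper6.HL.Proper G c := by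
      rw [← hf.2]
      exact Iff.rfl
    by_cases h : ∀ u v : Fin n, G.Adj u v → p (f u) ≠ p (f v)
    · rw [if_pos h, if_pos (h2.1 h)]
    · rw [if_neg h, if_neg (fun h3 => h (h2.2 h3))]
  rw [sum_congr rfl h1]
  by_cases h : Pool.Agent.Helper6.HL.Proper G c
  · simp only [if_pos h]
    rw [Finset.prod_univ_sum]
    refine sum_congr ?_ fun _ _ => rfl
    ext f
    simp only [mem_filter, mem_univ, true_and, Fintype.mem_piFinset]
    exact funext_iff
  · simp only [if_neg h, sum_const_zero]

open Classical in
/-- Let `H` be a complete multipartite graph (vertex set `W`, classes given by `p`) whose vertices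
have nonnegative real weights `ω`. Among all trees with `n` vertices the path has the smallest
weighted number of homomorphisms to `H`; with all weights equal to `1` this says that `H` is
Hoffman-London. -/
theorem result :
    ∀ (r : ℕ) (W : Type) [Fintype W] (p : W → Fin r) (ω : W → ℝ), (∀ x, 0 ≤ ω x) →
      ∀ (n : ℕ) (T : SimpleGraph (Fin n)), T.IsTree →
        ∑ f ∈ (univ : Finset (Fin n → W)).filter (fun f => ∀ u v : Fin n,
            (SimpleGraph.pathGraph n).Adj u v → p (f u) ≠ p (f v)), ∏ v, ω (f v)
          ≤ ∑ f ∈ (univ : Finset (Fin n → W)).filter (fun f => ∀ u v : Fin n,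
            T.Adj u v → p (f u) ≠ p (f v)), ∏ v, ω (f v) := by
  intro r W _ p ω hω n T hT
  rw [key, key]
  exact Pool.Agent.Helper70.SW.Y_le T hT _ fun i => sum_nonneg fun x _ => hω x

end Pool.Agent.Results.MP_66e4ee_co.WeightedAll
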